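import Pool.Agent.Lib_helper46.Chrom.Partner

/-!
# Degree two vertices (note 1214, section 5.8): the case `b = z`
-/

open Finset

namespace Pool.Agent.Chrom

variable {V : Type} [Fintype V] [DecidableEq V]

set_option linter.unusedSectionVars false

variable {A : Finset V → Prop} {S T f g X C D E P W : Finset V} {a b p q u v w x x' y z : V}

/-- every component of `G - {z, w}` contains `u` or `v` -/
lemma partner_comp (h : NC A) (hd : Deg2 A z u v) (hT : Tight A {z, w}) (hwz : w ≠ z)
    (hx : x ∉ ({z, w} : Finset V)) : u ∈ comp (gr A) {z, w} x ∨ v ∈ comp (gr A) {z, w} x := by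
  have hC : comp (gr A) {z, w} x ∈ comps (gr A) {z, w} := comp_mem_comps hx
  have hz : z ∉ comp (gr A) {z, w} x := fun hh =>
    Finset.disjoint_left.1 (comps_disjoint_S hC) hh (by simp)
  have hw : w ∉ comp (gr A) {z, w} x := fun hh =>
    Finset.disjoint_left.1 (comps_disjoint_S hC) hh (by simp)
  obtain ⟨p, hp, q, hq, hqw, hpq⟩ := exists_adj_out h (self_mem_comp x) hw hz hwz.symm
  have hqz : q = z := by
    by_contra hne
    exact hq (comps_closed hC hp hpq (by simp [hne, hqw]))
  rw [hqz] at hpq
  rcases (hd.nb p).1 hpq.symm with rfl | rfl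
  · exact Or.inl hp
  · exact Or.inr hp

structure Partner (A : Finset V → Prop) (z u v w : V) : Prop where
  tight : Tight A {z, w}
  wz : w ≠ z
  uw : u ∉ ({z, w} : Finset V)
  vw : v ∉ ({z, w} : Finset V)
  uv : v ∉ comp (gr A) {z, w} u
  cov : ∀ x, x ∉ ({z, w} : Finset V) → x ∉ comp (gr A) {z, w} u → x ∈ comp (gr A) {z, w} v

lemma partner (h : NC A) (hd : Deg2 A z u v) (hT : Tight A {z, w}) (hwz : w ≠ z) :
    Partner A z u v w := by
  classical
  have hnadj : ¬ (gr A).Adj z w := fun hh => hh.2 hT.face
  have huw : u ∉ ({z, w} : Finset V) := by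
    simp only [mem_insert, mem_singleton, not_or]
    exact ⟨hd.zu.ne', fun he => hnadj (he ▸ hd.zu)⟩
  have hvw : v ∉ ({z, w} : Finset V) := by
    simp only [mem_insert, mem_singleton, not_or]
    exact ⟨hd.zv.ne', fun he => hnadj (he ▸ hd.zv)⟩
  have hk : 2 ≤ (comps (gr A) {z, w}).card := by
    have := hT.zero
    unfold cc kk at this
    rw [card_pair hwz.symm] at this
    omega
  have huv : v ∉ comp (gr A) {z, w} u := by
    intro hv
    obtain ⟨C, hC, D, hD, hCD⟩ := one_lt_card.1 (show 1 < (comps (gr A) {z, w}).card by omega)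
    have key : ∀ C ∈ comps (gr A) {z, w}, C = comp (gr A) {z, w} u := by
      intro C hC
      obtain ⟨x, hx, rfl⟩ := mem_comps.1 hC
      rcases partner_comp h hd hT hwz hx with h1 | h1
      · exact (comp_eq_of_mem h1).symm
      · rw [← comp_eq_of_mem h1, comp_eq_of_mem hv]
    exact hCD ((key C hC).trans (key D hD).symm)
  refine ⟨hT, hwz, huw, hvw, huv, fun x hx hxu => ?_⟩
  rcases partner_comp h hd hT hwz hx with h1 | h1
  · exact absurd (by rw [comp_eq_of_mem h1]; exact self_mem_comp x) hxu
  · rw [comp_eq_of_mem h1]; exact self_mem_comp x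

/-- the main induction: there is no partner `w` with `a` in the component of `v` -/
theorem no_partner (hCoup : StmtCoup) (hQ : StmtLemmaQ) (h : NC A) (hr : Root A a z)
    (h4 : 4 ≤ Fintype.card V) (hS1 : AllCrossed A) (hS2 : AllCoupled A) :
    ∀ n : ℕ, ∀ u v w : V, Deg2 A z u v → Tight A {z, w} → w ≠ z → a ∈ comp (gr A) {z, w} v →
      (comp (gr A) {z, w} u).card ≤ n → False := by
  intro n
  induction n with
  | zero =>
    intro u v w hd hT hwz ha hn
    have : 0 < (comp (gr A) {z, w} u).card := card_pos.2 ⟨u, self_mem_comp u⟩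
    omega
  | succ n ih =>
    intro u v w hd hT hwz ha hn
    have hP := partner h hd hT hwz
    set Ru := comp (gr A) {z, w} u with hRu
    set Rv := comp (gr A) {z, w} v with hRv
    have hRuc : Ru ∈ comps (gr A) {z, w} := comp_mem_comps hP.uw
    have hRvc : Rv ∈ comps (gr A) {z, w} := comp_mem_comps hP.vw
    have hdisj : ∀ x ∈ Ru, x ∉ Rv := by
      intro x hx hxv
      have := comps_eq_of_mem hRuc hRvc hx hxv
      exact hP.uv (by rw [← hRu, this]; exact self_mem_comp v)
    have hzRu : z ∉ Ru := fun hh => Finset.disjoint_left.1 (comps_disjoint_S hRuc) hh (by simp)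
    have hwRu : w ∉ Ru := fun hh => Finset.disjoint_left.1 (comps_disjoint_S hRuc) hh (by simp)
    have hzRv : z ∉ Rv := fun hh => Finset.disjoint_left.1 (comps_disjoint_S hRvc) hh (by simp)
    have hwRv : w ∉ Rv := fun hh => Finset.disjoint_left.1 (comps_disjoint_S hRvc) hh (by simp)
    have huRu : u ∈ Ru := self_mem_comp u
    have haRu : a ∉ Ru := fun hh => hdisj a hh ha
    have haz : a ≠ z := fun he => hzRv (he ▸ ha)
    have haw : a ≠ w := fun he => hwRv (he ▸ ha)
    obtain ⟨g, hg, hc⟩ := Crossed.cross h hT (hS1 _ hT)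
    have hzg : z ∉ g := fun hh => Finset.disjoint_left.1 hc.disj (by simp) hh
    have hwg : w ∉ g := fun hh => Finset.disjoint_left.1 hc.disj (by simp) hh
    have hgcov : ∀ x ∈ g, x ∉ Ru → x ∈ Rv := by
      intro x hx hxu
      refine hP.cov x ?_ hxu
      simp only [mem_insert, mem_singleton, not_or]
      exact ⟨fun he => hzg (he ▸ hx), fun he => hwg (he ▸ hx)⟩
    -- `g` meets `Ru` in one point
    have hgu1 : (g ∩ Ru).card ≤ 1 := by
      by_contra hlt
      rcases hc.root_mem h hr hRuc (by omega) with h1 | h1
      · exact haRu h1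
      · exact hzRu h1
    have hgne : (g ∩ Ru).Nonempty := by
      obtain ⟨x, hx, hxv⟩ := hc.exists_other v
      refine ⟨x, mem_inter.2 ⟨hx, ?_⟩⟩
      by_contra hxu
      exact hxv (mem_comp.1 (hgcov x hx hxu))
    obtain ⟨p, hp⟩ := card_eq_one.1 (le_antisymm hgu1 (card_pos.2 hgne))
    have hpgR : p ∈ g ∩ Ru := by rw [hp]; exact mem_singleton_self p
    have hpg : p ∈ g := (mem_inter.1 hpgR).1
    have hpR : p ∈ Ru := (mem_inter.1 hpgR).2
    have honly : ∀ x ∈ g, x ∈ Ru → x = p := by
      intro x hx hxR
      have : x ∈ g ∩ Ru := mem_inter.2 ⟨hx, hxR⟩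
      rwa [hp, mem_singleton] at this
    -- `z` and `w` are in different components of `G - g`
    have hzw : ¬ (del (gr A) g).Reachable z w := by
      intro hr'
      obtain ⟨s, hs, t, ht, hst⟩ := (hc.symm h).exists_not_reachable
      rw [mem_insert, mem_singleton] at hs ht
      rcases hs with rfl | rfl <;> rcases ht with rfl | rfl
      · exact hst (SimpleGraph.Reachable.refl _)
      · exact hst hr'
      · exact hst hr'.symm
      · exact hst (SimpleGraph.Reachable.refl _)
    have hpz : p ≠ z := fun he => hzg (he ▸ hpg)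
    have hpw : p ≠ w := fun he => hwg (he ▸ hpg)
    have hpv : p ≠ v := fun he => hdisj v (he ▸ hpR) (self_mem_comp v)
    by_cases hpu : p = u
    · -- `u ∈ g`: `u` has degree two
      subst hpu
      have hnb : ∀ q, (gr A).Adj p q → q = z ∨ q = w := by
        intro q hq
        by_contra hno
        push Not at hno
        obtain ⟨hqz, hqw⟩ := hno
        have hqR : q ∈ Ru := comps_closed hRuc hpR hq (by simp [hqz, hqw])
        have hcl : Closed (gr A) {p, w} (Ru.erase p) := by
          intro s hs t hst ht
          rw [mem_erase] at hs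
          simp only [mem_insert, mem_singleton, not_or] at ht
          rw [mem_erase]
          refine ⟨ht.1, comps_closed hRuc hs.2 hst ?_⟩
          simp only [mem_insert, mem_singleton, not_or]
          refine ⟨?_, ht.2⟩
          rintro rfl
          rcases (hd.nb s).1 hst.symm with h1 | h1
          · exact hs.1 h1
          · exact hdisj s hs.2 (h1 ▸ self_mem_comp v)
        have hqpw : q ∉ ({p, w} : Finset V) := by
          simp only [mem_insert, mem_singleton, not_or]
          exact ⟨hq.ne', hqw⟩
        have hQ' : comp (gr A) {p, w} q ⊆ Ru.erase p := by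
          intro s hs
          exact (reachable_closed hcl (mem_erase.2 ⟨hq.ne', hqR⟩) (mem_comp.1 hs)).1
        have hQc : comp (gr A) {p, w} q ∈ comps (gr A) {p, w} := comp_mem_comps hqpw
        have hzpw : z ∉ ({p, w} : Finset V) := by
          simp only [mem_insert, mem_singleton, not_or]
          exact ⟨hpz.symm, hwz.symm⟩
        have hapw : a ∉ ({p, w} : Finset V) := by
          simp only [mem_insert, mem_singleton, not_or]
          exact ⟨fun he => haRu (he ▸ hpR), haw⟩
        have hzQ : z ∉ comp (gr A) {p, w} q := fun hh => hzRu (mem_erase.1 (hQ' hh)).2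
        have haQ : a ∉ comp (gr A) {p, w} q := fun hh => haRu (mem_erase.1 (hQ' hh)).2
        by_cases hadj : (gr A).Adj p w
        · obtain ⟨f, _, _, _, _, _, hT1, _, hre, _⟩ := hCoup V A p w _ h hS1 hS2 hadj hQc
            ⟨z, hzQ, hpz.symm, hwz.symm⟩
          have ha' : a ∉ insert p (comp (gr A) {p, w} q) := by
            simp only [mem_insert, not_or]
            exact ⟨fun he => haRu (he ▸ hpR), haQ⟩
          have hz' : z ∉ insert p (comp (gr A) {p, w} q) := by
            simp only [mem_insert, not_or]
            exact ⟨hpz.symm, hzQ⟩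
          have hsub : insert p (f ∩ comp (gr A) {p, w} q) ⊆ insert p (comp (gr A) {p, w} q) :=
            insert_subset_insert _ inter_subset_right
          rcases hr _ hT1 with h1 | h1 | h1
          · exact ha' (hsub h1)
          · exact hz' (hsub h1)
          · exact h1 (hre a z ha' hz')
        · have hT' : Tight A {p, w} := tight_pair h hpw hadj hqpw hzpw hzQ
          rcases hr _ hT' with h1 | h1 | h1
          · exact hapw h1
          · exact hzpw h1
          · refine h1 ?_
            have := mem_comp_of_tight_pair hT' hpw hqpw hzpw hzQ hapw haQ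
            exact (mem_comp.1 this).symm
      have hpwadj : (gr A).Adj p w := by
        obtain ⟨s, hs, t, ht, htz, hst⟩ := exists_adj_out (E := {p}) (x := z) (v := w) h
          (mem_singleton_self p) (by simp [hpz.symm]) (by simp [hpw.symm]) hwz
        rw [mem_singleton] at hs
        subst hs
        rcases hnb t hst with h1 | h1
        · exact absurd h1 htz
        · rw [← h1]; exact hst
      refine hQ V A a z w p h hr h4 hS1 ?_ hwz.symm (fun hh => hh.2 hT.face)
      intro q
      constructor
      · exact hnb q
      · rintro (rfl | rfl)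
        · exact hd.zu.symm
        · exact hpwadj
    · -- `{z, p}` is a smaller partner
      have hug : u ∉ g := fun hh => hpu (honly u hh huRu).symm
      set E' := comp (gr A) {z, w, p} u with hE'
      have hsub1 : ({z, w} : Finset V) ⊆ {z, w, p} := by
        intro x hx
        rcases mem_insert.1 hx with rfl | hx
        · exact mem_insert_self _ _
        · rw [mem_singleton.1 hx]; simp
      have hu3 : u ∉ ({z, w, p} : Finset V) := by
        have := hP.uw
        simp only [mem_insert, mem_singleton, not_or] at this ⊢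
        exact ⟨this.1, this.2, fun he => hpu he.symm⟩
      have hE'c : E' ∈ comps (gr A) {z, w, p} := comp_mem_comps hu3
      have hE'R : E' ⊆ Ru := comp_anti hsub1 u
      have hpE' : p ∉ E' := fun hh =>
        Finset.disjoint_left.1 (comps_disjoint_S hE'c) hh (by simp)
      have hE'g : E' ⊆ comp (gr A) g u := by
        refine conn_subset_comp (comps_conn hE'c) ?_ (self_mem_comp u)
        rw [Finset.disjoint_left]
        intro x hx hxg
        exact hpE' (honly x hxg (hE'R hx) ▸ hx)
      have hcl : Closed (gr A) {z, p} E' := by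
        intro s hs t hst ht
        simp only [mem_insert, mem_singleton, not_or] at ht
        by_cases htw : t = w
        · exfalso
          subst htw
          refine hzw ?_
          have h1 : (del (gr A) g).Reachable z u := SimpleGraph.Adj.reachable ⟨hd.zu, hzg, hug⟩
          have h2 : (del (gr A) g).Reachable u s := mem_comp.1 (hE'g hs)
          have hsg : s ∉ g := not_mem_of_reachable h2 hug
          exact (h1.trans h2).trans (SimpleGraph.Adj.reachable ⟨hst, hsg, hwg⟩)
        · exact comps_closed hE'c hs hst (by simp [ht.1, ht.2, htw])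
      have hU : comp (gr A) {z, p} u ⊆ E' := by
        intro x hx
        exact (reachable_closed hcl (self_mem_comp u) (mem_comp.1 hx)).1
      have hlt : (comp (gr A) {z, p} u).card < Ru.card := by
        refine card_lt_card ?_
        rw [Finset.ssubset_iff_subset_ne]
        refine ⟨hU.trans hE'R, fun he => hpE' (hU (he ▸ hpR))⟩
      have huzp : u ∉ ({z, p} : Finset V) := by
        simp only [mem_insert, mem_singleton, not_or]
        exact ⟨hd.zu.ne', fun he => hpu he.symm⟩
      have hvzp : v ∉ ({z, p} : Finset V) := by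
        simp only [mem_insert, mem_singleton, not_or]
        exact ⟨hd.zv.ne', fun he => hpv he.symm⟩
      have hvU : v ∉ comp (gr A) {z, p} u := fun hh =>
        hdisj v (hE'R (hU hh)) (self_mem_comp v)
      have hnadj : ¬ (gr A).Adj z p := by
        intro hh
        rcases (hd.nb p).1 hh with h1 | h1
        · exact hpu h1
        · exact hpv h1
      have hT' : Tight A {z, p} := tight_pair h hpz.symm hnadj huzp hvzp hvU
      have hazp : a ∉ ({z, p} : Finset V) := by
        simp only [mem_insert, mem_singleton, not_or]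
        exact ⟨haz, fun he => haRu (he ▸ hpR)⟩
      have ha' : a ∈ comp (gr A) {z, p} v :=
        mem_comp_of_tight_pair hT' hpz.symm huzp hvzp hvU hazp fun hh => haRu (hE'R (hU hh))
      refine ih u v p hd hT' hpz ha' ?_
      omega

/-- **5.8, the case `b = z`** -/
theorem degTwo (hCoup : StmtCoup) (hQ : StmtLemmaQ) : StmtDegTwo := by
  intro V _ _ A a u v z h hr h4 hS1 hS2 hnb hne hna
  have hd : Deg2 A z u v := ⟨hnb, hne, hna⟩
  obtain ⟨w, hwz, hT⟩ := exists_partner h hr h4 hS1 hd
  have hP := partner h hd hT hwz
  -- `a` is not in `{z, w}` and lies on one side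
  obtain ⟨g, hg, hc⟩ := Crossed.cross h hT (hS1 _ hT)
  have hzg : z ∉ g := fun hh => Finset.disjoint_left.1 hc.disj (by simp) hh
  have hwg : w ∉ g := fun hh => Finset.disjoint_left.1 hc.disj (by simp) hh
  have hRuc : comp (gr A) {z, w} u ∈ comps (gr A) {z, w} := comp_mem_comps hP.uw
  have hRvc : comp (gr A) {z, w} v ∈ comps (gr A) {z, w} := comp_mem_comps hP.vw
  have hcard : g.card ≤ (g ∩ comp (gr A) {z, w} u).card + (g ∩ comp (gr A) {z, w} v).card := by
    have hsub : g ⊆ (g ∩ comp (gr A) {z, w} u) ∪ (g ∩ comp (gr A) {z, w} v) := by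
      intro x hx
      rw [mem_union, mem_inter, mem_inter]
      by_cases hxu : x ∈ comp (gr A) {z, w} u
      · exact Or.inl ⟨hx, hxu⟩
      · refine Or.inr ⟨hx, hP.cov x ?_ hxu⟩
        simp only [mem_insert, mem_singleton, not_or]
        exact ⟨fun he => hzg (he ▸ hx), fun he => hwg (he ▸ hx)⟩
    exact (card_le_card hsub).trans (card_union_le _ _)
  have h3 := hg.2
  by_cases hu2 : 2 ≤ (g ∩ comp (gr A) {z, w} u).card
  · rcases hc.root_mem h hr hRuc hu2 with h1 | h1
    · exact no_partner hCoup hQ h hr h4 hS1 hS2 _ v u w hd.symm hT hwz h1 le_rfl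
    · exact Finset.disjoint_left.1 (comps_disjoint_S hRuc) h1 (by simp)
  · rcases hc.root_mem h hr hRvc (by omega) with h1 | h1
    · exact no_partner hCoup hQ h hr h4 hS1 hS2 _ u v w hd hT hwz h1 le_rfl
    · exact Finset.disjoint_left.1 (comps_disjoint_S hRvc) h1 (by simp)

end Pool.Agent.Chrom
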