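import Pool.Agent.Lib_helper46.Chrom.Cross2

/-!
# The never-stuck theorem: definitions and statements (note 1214, section 5)

Every statement is a `Prop`; prove it as `theorem lemmaX : StmtLemmaX` in your own file and use the
other statements as hypotheses (`(hCoup : StmtCoup)` etc.).
-/

open Finset

namespace Pool.Agent.Chrom

/-- a tight face `D` missing `a` with the largest component of `a` in `G - D` and with no proper
tight subface -/
structure Big {V : Type} [Fintype V] [DecidableEq V] (A : Finset V → Prop) (a : V)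
    (D : Finset V) : Prop where
  tight : Tight A D
  na : a ∉ D
  min : ∀ X, X ⊂ D → ¬ Tight A X
  max : ∀ T, Tight A T → a ∉ T → (comp (gr A) T a).card ≤ (comp (gr A) D a).card

/-- the structure of `G - D` for a big tight face `D` crossed by the member `f` (5.3); the set `Z`
of the text is the set of the points outside `D` and outside `comp (gr A) D a` -/
structure Str {V : Type} [Fintype V] [DecidableEq V] (A : Finset V → Prop) (a : V)
    (D f : Finset V) : Prop where
  mem : Mem A f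
  cross : Cross A D f
  /-- the points of `D` lie in different components of `G - f` -/
  sep : ∀ d ∈ D, ∀ d' ∈ D, d ≠ d' → ¬ (del (gr A) f).Reachable d d'
  zf : ∀ v, v ∉ D → v ∉ comp (gr A) D a → v ∈ f
  zn : ∀ v, v ∉ D → v ∉ comp (gr A) D a → ∀ w, (gr A).Adj v w → w ∈ D
  yne : (f ∩ comp (gr A) D a).Nonempty
  card : (univ \ (D ∪ comp (gr A) D a)).card + 1 = D.card

/-- COUP + COUP2: at every clique cut `{x, x'}` and component `E` there is a coupling through `x`;
its two traces are tight faces with the stated outer components -/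
def StmtCoup : Prop :=
  ∀ (V : Type) [Fintype V] [DecidableEq V] (A : Finset V → Prop) (x x' : V) (E : Finset V),
    NC A → AllCrossed A → AllCoupled A → (gr A).Adj x x' → E ∈ comps (gr A) {x, x'} →
    (∃ v, v ∉ E ∧ v ≠ x ∧ v ≠ x') →
    ∃ f, Mem A f ∧ x ∈ f ∧ x' ∉ f ∧ (f ∩ E).Nonempty ∧ (∃ v ∈ f, v ∉ E ∧ v ≠ x ∧ v ≠ x') ∧
      Tight A (insert x (f ∩ E)) ∧ Tight A (f \ E) ∧
      (∀ u v, u ∉ insert x E → v ∉ insert x E →
        (del (gr A) (insert x (f ∩ E))).Reachable u v) ∧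
      (∀ u v, u ∈ insert x' E → v ∈ insert x' E → (del (gr A) (f \ E)).Reachable u v)

/-- 5.1 -/
def StmtLemmaR : Prop :=
  ∀ (V : Type) [Fintype V] [DecidableEq V] (A : Finset V → Prop) (a : V),
    NC A → 4 ≤ Fintype.card V → AllCrossed A → AllCoupled A →
    (∀ T, Tight A T → a ∉ T → ∀ v, (gr A).Adj a v → v ∈ T) →
    ∀ S : Finset V, S.card ≤ 2 → kk (gr A) S = 1

/-- 5.3 -/
def StmtStr : Prop :=
  ∀ (V : Type) [Fintype V] [DecidableEq V] (A : Finset V → Prop) (a : V) (D f : Finset V),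
    NC A → AllCrossed A → AllCoupled A → Big A a D → Mem A f → Cross A D f → Str A a D f

/-- 5.4 -/
def StmtLemmaP : Prop :=
  ∀ (V : Type) [Fintype V] [DecidableEq V] (A : Finset V → Prop) (a : V) (D T : Finset V),
    NC A → AllCrossed A → AllCoupled A → Big A a D → Tight A T →
    Disjoint T (comp (gr A) D a) → T = D

/-- 5.5 (pure graph theory; `f = Z ∪ Y`) -/
def StmtLemmaM : Prop :=
  ∀ (V : Type) [Fintype V] [DecidableEq V] (G : SimpleGraph V) (D Z Y S : Finset V),
    Disjoint D Z → Disjoint D Y → Disjoint Z Y →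
    (∀ z ∈ Z, ∀ w, G.Adj z w → w ∈ D) →
    (∀ d ∈ D, ∀ d' ∈ D, d ≠ d' → ¬ (del G (Z ∪ Y)).Reachable d d') →
    (∀ s ∈ S, s ∈ Z ∨ ∃ d ∈ D, (del G (Z ∪ Y)).Reachable d s) →
    (S ∩ Z).Nonempty →
    (∀ X, X ⊂ S → X.Nonempty → cc G X ≤ 0) → 0 ≤ cc G S →
    (∀ y ∈ Y, ∀ y' ∈ Y, (del G S).Reachable y y') →
    0 ≤ cc G (S ∩ (D ∪ Z))

/-- 5.6 -/
def StmtYbig : Prop :=
  ∀ (V : Type) [Fintype V] [DecidableEq V] (A : Finset V → Prop) (a : V) (D f : Finset V),
    NC A → AllCrossed A → AllCoupled A → Big A a D → Str A a D f → 3 ≤ D.card →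
    2 ≤ (f ∩ comp (gr A) D a).card → False

/-- 5.7 -/
def StmtYone : Prop :=
  ∀ (V : Type) [Fintype V] [DecidableEq V] (A : Finset V → Prop) (a b : V) (D f : Finset V),
    NC A → Root A a b → AllCrossed A → AllCoupled A → Big A a D → Str A a D f → 3 ≤ D.card →
    (f ∩ comp (gr A) D a).card = 1 → 2 ≤ (comp (gr A) D a).card → False

/-- 5.8, Lemma Q -/
def StmtLemmaQ : Prop :=
  ∀ (V : Type) [Fintype V] [DecidableEq V] (A : Finset V → Prop) (a b v z : V),
    NC A → Root A a b → 4 ≤ Fintype.card V → AllCrossed A →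
    (∀ w, (gr A).Adj z w ↔ w = b ∨ w = v) → b ≠ v → ¬ (gr A).Adj b v → False

/-- 5.8, the case `b = z` -/
def StmtDegTwo : Prop :=
  ∀ (V : Type) [Fintype V] [DecidableEq V] (A : Finset V → Prop) (a u v z : V),
    NC A → Root A a z → 4 ≤ Fintype.card V → AllCrossed A → AllCoupled A →
    (∀ w, (gr A).Adj z w ↔ w = u ∨ w = v) → u ≠ v → ¬ (gr A).Adj u v → False

/-- **never stuck** -/
def StmtNS : Prop :=
  ∀ (V : Type) [Fintype V] [DecidableEq V] (A : Finset V → Prop) (a b : V),
    NC A → Root A a b → 4 ≤ Fintype.card V → AllCrossed A → AllCoupled A →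
    (∀ S : Finset V, S.card ≤ 2 → kk (gr A) S = 1) ∧
      ∃ u v, (gr A).Adj u v ∧ ∀ T, Tight A T → u ∈ T ∨ v ∈ T

end Pool.Agent.Chrom
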