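import Pool.Agent.Lib_helper46.Chrom.NSDefs

/-!
# Couplings at clique cuts (note 1214, section 1: COUP, COUP2)
-/

open Finset

namespace Pool.Agent.Chrom

variable {V : Type*} [Fintype V] [DecidableEq V]

set_option linter.unusedSectionVars false

variable {A : Finset V → Prop} {S T f g X C D E P : Finset V} {a b p q u v w x x' y z : V}

lemma Mem.not_adj (hf : Mem A f) (hu : u ∈ f) (hv : v ∈ f) : ¬ (gr A).Adj u v := by
  intro hadj
  refine hadj.2 (hf.1.2 _ ?_)
  rw [Finset.ssubset_iff_subset_ne]
  refine ⟨pair_subset_iff.2 ⟨hu, hv⟩, fun he => ?_⟩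
  have h3 := hf.2
  rw [← he] at h3
  have := card_le_two (a := u) (b := v)
  omega

/-- the complement of `insert x E` is connected in `G - (insert x E)` -/
lemma coup_reach_out (h : NC A) (hadj : (gr A).Adj x x') (hE : E ∈ comps (gr A) {x, x'})
    (hu : u ∉ insert x E) : (del (gr A) (insert x E)).Reachable x' u := by
  classical
  by_contra hno
  have hxE : x ∉ E := fun hx => Finset.disjoint_left.1 (comps_disjoint_S hE) hx (by simp)
  have hx'E : x' ∉ E := fun hx => Finset.disjoint_left.1 (comps_disjoint_S hE) hx (by simp)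
  have hUx : ∀ p ∈ comp (gr A) (insert x E) u, p ∉ insert x E := fun p hp =>
    not_mem_of_reachable (mem_comp.1 hp) hu
  have hx'U : x' ∉ comp (gr A) (insert x E) u := fun hx => hno (mem_comp.1 hx).symm
  obtain ⟨p, hp, q, hq, hqx, hpq⟩ := exists_adj_out (E := comp (gr A) (insert x E) u) (x := x)
    (v := x') h (self_mem_comp u) (fun hx => hUx x hx (mem_insert_self _ _)) hx'U hadj.ne'
  have hp' := hUx p hp
  have hpx : p ≠ x := fun he => hp' (he ▸ mem_insert_self _ _)
  have hpE : p ∉ E := fun he => hp' (mem_insert_of_mem he)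
  have hpx' : p ≠ x' := fun he => hx'U (he ▸ hp)
  have hqE : q ∉ E := by
    intro hqE
    refine hpE (comps_closed hE hqE hpq.symm ?_)
    simp [hpx, hpx']
  refine hq ?_
  rw [mem_comp] at hp ⊢
  refine hp.trans (SimpleGraph.Adj.reachable ⟨hpq, hp', ?_⟩)
  simp [hqx, hqE]

lemma coup_reach_out' (h : NC A) (hadj : (gr A).Adj x x') (hE : E ∈ comps (gr A) {x, x'})
    (hX : X ⊆ insert x E) (hu : u ∉ insert x E) (hv : v ∉ insert x E) :
    (del (gr A) X).Reachable u v := by
  have h1 := coup_reach_out h hadj hE hu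
  have h2 := coup_reach_out h hadj hE hv
  exact (h1.symm.trans h2).mono (del_mono hX)

/-- `insert x' E` is connected -/
lemma coup_conn (h : NC A) (hadj : (gr A).Adj x x') (hE : E ∈ comps (gr A) {x, x'}) :
    Conn (gr A) (insert x' E) := by
  have hxE : x ∉ E := fun hx => Finset.disjoint_left.1 (comps_disjoint_S hE) hx (by simp)
  have hx'E : x' ∉ E := fun hx => Finset.disjoint_left.1 (comps_disjoint_S hE) hx (by simp)
  obtain ⟨e, he⟩ := comps_nonempty hE
  obtain ⟨p, hp, q, hq, hqx, hpq⟩ := exists_adj_out (E := E) (x := x) (v := x') h he hxE hx'E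
    hadj.ne'
  have hqx' : q = x' := by
    by_contra hne
    exact hq (comps_closed hE hp hpq (by simp [hqx, hne]))
  subst hqx'
  have := Conn.union_of_adj (comps_conn hE) (conn_singleton (G := gr A) q) hp
    (mem_singleton_self q) hpq
  rwa [union_comm, ← insert_eq] at this

lemma coup_reach_in (h : NC A) (hadj : (gr A).Adj x x') (hE : E ∈ comps (gr A) {x, x'})
    (hX : Disjoint (insert x' E) X) (hu : u ∈ insert x' E) (hv : v ∈ insert x' E) :
    (del (gr A) X).Reachable u v := by
  rw [← mem_comp]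
  exact conn_subset_comp (coup_conn h hadj hE) hX hu hv

/-- a coupling -/
def IsCoup (A : Finset V → Prop) (x x' : V) (E f : Finset V) : Prop :=
  Mem A f ∧ (f ∩ E).Nonempty ∧ ∃ v ∈ f, v ∉ E ∧ v ≠ x ∧ v ≠ x'

/-- a coupling contains `x` or `x'` -/
lemma coup_mem (h : NC A) (hadj : (gr A).Adj x x') (hE : E ∈ comps (gr A) {x, x'})
    (hf : IsCoup A x x' E f) : x ∈ f ∨ x' ∈ f := by
  by_contra hno
  push Not at hno
  obtain ⟨hf, ⟨e, he⟩, r, hr, hrE, hrx, hrx'⟩ := hf
  rw [mem_inter] at he
  have hd : Disjoint ({x, x'} : Finset V) f := by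
    rw [Finset.disjoint_left]
    intro w hw
    rcases mem_insert.1 hw with rfl | hw
    · exact hno.1
    · rw [mem_singleton.1 hw]; exact hno.2
  have h2 : 2 ≤ (meetComps (gr A) {x, x'} f).card := by
    by_contra hlt
    have hr' := reachable_of_meet_le (G := gr A) hd (by omega) he.1 hr
    rw [← mem_comp, comp_eq_of_mem_comps hE he.2] at hr'
    exact hrE hr'
  have hq := hf.qt h
  have h3 := cross_card_le h.conn hd (by simp) hq.nonneg (hq.le h) h2
  have h4 : (meetComps (gr A) f {x, x'}).card ≤ 1 := by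
    refine meet_le_of_reachable ?_
    have hr' : (del (gr A) f).Reachable x x' := SimpleGraph.Adj.reachable ⟨hadj, hno.1, hno.2⟩
    intro p hp q hq
    rw [mem_insert, mem_singleton] at hp hq
    rcases hp with rfl | rfl <;> rcases hq with rfl | rfl
    · exact SimpleGraph.Reachable.refl _
    · exact hr'
    · exact hr'.symm
    · exact SimpleGraph.Reachable.refl _
  omega

/-- the traces of a coupling through `x` are tight faces -/
lemma coup_tight (h : NC A) (hadj : (gr A).Adj x x') (hE : E ∈ comps (gr A) {x, x'})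
    (hf : IsCoup A x x' E f) (hx : x ∈ f) :
    x' ∉ f ∧ Tight A (insert x (f ∩ E)) ∧ Tight A (f \ E) := by
  classical
  obtain ⟨hf, ⟨e, he⟩, r, hr, hrE, hrx, hrx'⟩ := hf
  rw [mem_inter] at he
  have hx'f : x' ∉ f := fun hx' => hf.not_adj hx hx' hadj
  have hxE : x ∉ E := fun hx => Finset.disjoint_left.1 (comps_disjoint_S hE) hx (by simp)
  have hx'E : x' ∉ E := fun hx => Finset.disjoint_left.1 (comps_disjoint_S hE) hx (by simp)
  have hT1s : insert x (f ∩ E) ⊂ f := by
    rw [Finset.ssubset_iff_subset_ne]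
    refine ⟨insert_subset hx inter_subset_left, fun heq => ?_⟩
    rw [← heq] at hr
    rcases mem_insert.1 hr with h1 | h1
    · exact hrx h1
    · exact hrE (mem_inter.1 h1).2
  have hT2s : f \ E ⊂ f := by
    rw [Finset.ssubset_iff_subset_ne]
    refine ⟨sdiff_subset, fun heq => ?_⟩
    have := he.1
    rw [← heq] at this
    exact (mem_sdiff.1 this).2 he.2
  have hT1A : A (insert x (f ∩ E)) := hf.1.2 _ hT1s
  have hT2A : A (f \ E) := hf.1.2 _ hT2s
  set avE := (comps (gr A) f).filter (fun B => B ⊆ E) with havE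
  set avR := (comps (gr A) f).filter (fun B => Disjoint B E ∧ x' ∉ B) with havR
  have hcov : comps (gr A) f ⊆ insert (comp (gr A) f x') (avE ∪ avR) := by
    intro B hB
    rw [mem_insert, mem_union, havE, havR, mem_filter, mem_filter]
    by_cases hx'B : x' ∈ B
    · left
      exact (comp_eq_of_mem_comps hB hx'B).symm
    · right
      by_cases hBE : Disjoint B E
      · right; exact ⟨hB, hBE, hx'B⟩
      · left
        refine ⟨hB, ?_⟩
        rw [Finset.not_disjoint_iff] at hBE
        obtain ⟨w, hw, hwE⟩ := hBE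
        have hBd : Disjoint B ({x, x'} : Finset V) := by
          rw [Finset.disjoint_right]
          intro t ht
          rcases mem_insert.1 ht with rfl | ht
          · exact fun htB => Finset.disjoint_left.1 (comps_disjoint_S hB) htB hx
          · rw [mem_singleton.1 ht]; exact hx'B
        have := conn_subset_comp (comps_conn hB) hBd hw
        rwa [comp_eq_of_mem_comps hE hwE] at this
  have hk : kk (gr A) f ≤ 1 + avE.card + avR.card := by
    have h1 := card_le_card hcov
    have h2 := card_insert_le (comp (gr A) f x') (avE ∪ avR)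
    have h3 := card_union_le avE avR
    unfold kk
    omega
  -- the first trace
  have hsub1 : insert (comp (gr A) (insert x (f ∩ E)) x') avE ⊆
      comps (gr A) (insert x (f ∩ E)) := by
    intro B hB
    rcases mem_insert.1 hB with rfl | hB
    · refine comp_mem_comps ?_
      simp [hadj.ne', hx'E]
    · rw [havE, mem_filter] at hB
      refine comps_of_comps hB.1 ?_ ?_
      · exact (comps_disjoint_S hB.1).mono_right (insert_subset hx inter_subset_left)
      · intro s hs t hst htB
        have htf : t ∈ f := by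
          by_contra htf
          exact htB (comps_closed hB.1 hs hst htf)
        by_cases htx : t = x
        · rw [htx]; exact mem_insert_self _ _
        · refine mem_insert_of_mem (mem_inter.2 ⟨htf, ?_⟩)
          refine comps_closed hE (hB.2 hs) hst ?_
          simp only [mem_insert, mem_singleton, not_or]
          exact ⟨htx, fun he => hx'f (he ▸ htf)⟩
  have hnot1 : comp (gr A) (insert x (f ∩ E)) x' ∉ avE := by
    intro hB
    rw [havE, mem_filter] at hB
    exact hx'E (hB.2 (self_mem_comp x'))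
  have hk1 : avE.card + 1 ≤ kk (gr A) (insert x (f ∩ E)) := by
    rw [← card_insert_of_notMem hnot1]
    exact card_le_card hsub1
  -- the second trace
  have hsub2 : insert (comp (gr A) (f \ E) x') avR ⊆ comps (gr A) (f \ E) := by
    intro B hB
    rcases mem_insert.1 hB with rfl | hB
    · refine comp_mem_comps ?_
      simp [hx'f]
    · rw [havR, mem_filter] at hB
      obtain ⟨hB1, hB2, hB3⟩ := hB
      refine comps_of_comps hB1 ((comps_disjoint_S hB1).mono_right sdiff_subset) ?_
      intro s hs t hst htB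
      have htf : t ∈ f := by
        by_contra htf
        exact htB (comps_closed hB1 hs hst htf)
      refine mem_sdiff.2 ⟨htf, fun htE => ?_⟩
      have hsE : s ∉ E := fun hsE => Finset.disjoint_left.1 hB2 hs hsE
      refine hsE (comps_closed hE htE hst.symm ?_)
      simp only [mem_insert, mem_singleton, not_or]
      refine ⟨fun he => ?_, fun he => hB3 (he ▸ hs)⟩
      exact Finset.disjoint_left.1 (comps_disjoint_S hB1) hs (he ▸ hx)
  have hnot2 : comp (gr A) (f \ E) x' ∉ avR := by
    intro hB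
    rw [havR, mem_filter] at hB
    exact hB.2.2 (self_mem_comp x')
  have hk2 : avR.card + 1 ≤ kk (gr A) (f \ E) := by
    rw [← card_insert_of_notMem hnot2]
    exact card_le_card hsub2
  -- sizes
  have hc1 := h.face _ hT1A ⟨x, mem_insert_self _ _⟩
  have hc2 := h.face _ hT2A ⟨x, mem_sdiff.2 ⟨hx, hxE⟩⟩
  have hc := h.nonface f hf.1 hf.2
  have hcard : (f ∩ E).card + (f \ E).card = f.card := by
    rw [add_comm]; exact card_sdiff_add_card_inter f E
  have hcard1 : (insert x (f ∩ E)).card = (f ∩ E).card + 1 := by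
    refine card_insert_of_notMem ?_
    simp [hxE]
  have hpos : 0 < (f ∩ E).card := card_pos.2 ⟨e, mem_inter.2 he⟩
  have hr2 : 2 ≤ (f \ E).card := by
    have h1 : ({x, r} : Finset V) ⊆ f \ E := by
      rw [pair_subset_iff]
      exact ⟨mem_sdiff.2 ⟨hx, hxE⟩, mem_sdiff.2 ⟨hr, hrE⟩⟩
    have h2 := card_le_card h1
    rwa [card_pair hrx.symm] at h2
  unfold cc at hc1 hc2 hc
  refine ⟨hx'f, ⟨hT1A, by omega, ?_⟩, ⟨hT2A, hr2, ?_⟩⟩
  · unfold cc; omega
  · unfold cc; omega

/-- **COUP2**: a blocker of the first trace of a coupling through `x` is a coupling through `x'` -/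
lemma coup_block (h : NC A) (hadj : (gr A).Adj x x') (hE : E ∈ comps (gr A) {x, x'})
    (hf : IsCoup A x x' E f) (hx : x ∈ f) (hg : Mem A g) (hc : Cross A (insert x (f ∩ E)) g) :
    IsCoup A x x' E g ∧ x' ∈ g := by
  obtain ⟨hx'f, hT1, hT2⟩ := coup_tight h hadj hE hf hx
  have hxE : x ∉ E := fun hx => Finset.disjoint_left.1 (comps_disjoint_S hE) hx (by simp)
  have hfm := hf.1
  have hsub : insert x (f ∩ E) ⊆ f := insert_subset hx inter_subset_left
  have hint : ∃ p, p ∈ g ∧ p ∈ f := by
    by_contra hno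
    push Not at hno
    have hd : Disjoint g f := by rw [Finset.disjoint_left]; exact hno
    obtain ⟨u, hu, v, hv, huv⟩ := (hc.symm h).exists_not_reachable
    exact not_cross h hg hfm (cross_of_not_reachable hd (hg.qt h) (hfm.qt h) (hsub hu)
      (hsub hv) huv)
  obtain ⟨p, hpg, hpf⟩ := hint
  have hpT : p ∉ insert x (f ∩ E) := fun hp => Finset.disjoint_left.1 hc.disj hp hpg
  have hpx : p ≠ x := fun he => hpT (he ▸ mem_insert_self _ _)
  have hpE : p ∉ E := fun he => hpT (mem_insert_of_mem (mem_inter.2 ⟨hpf, he⟩))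
  have hpx' : p ≠ x' := fun he => hx'f (he ▸ hpf)
  have hxg : x ∉ g := fun hxg => Finset.disjoint_left.1 hc.disj (mem_insert_self _ _) hxg
  obtain ⟨q, hq, hpq⟩ := hc.exists_other p
  have hqE : q ∈ E := by
    by_contra hqE
    refine hpq (coup_reach_out' h hadj hE (insert_subset_insert _ inter_subset_right) ?_ ?_)
    · simp [hpx, hpE]
    · simp only [mem_insert, not_or]
      exact ⟨fun he => hxg (he ▸ hq), hqE⟩
  have hco : IsCoup A x x' E g := ⟨hg, ⟨q, mem_inter.2 ⟨hq, hqE⟩⟩, p, hpg, hpE, hpx, hpx'⟩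
  refine ⟨hco, ?_⟩
  rcases coup_mem h hadj hE hco with h1 | h1
  · exact absurd h1 hxg
  · exact h1

lemma IsCoup.swap (hf : IsCoup A x x' E f) : IsCoup A x' x E f := by
  obtain ⟨h1, h2, r, h3, h4, h5, h6⟩ := hf
  exact ⟨h1, h2, r, h3, h4, h6, h5⟩

/-- there is a coupling through `x` -/
lemma exists_coup (h : NC A) (hS1 : AllCrossed A) (hS2 : AllCoupled A)
    (hadj : (gr A).Adj x x') (hE : E ∈ comps (gr A) {x, x'})
    (hout : ∃ v, v ∉ E ∧ v ≠ x ∧ v ≠ x') : ∃ f, IsCoup A x x' E f ∧ x ∈ f := by
  obtain ⟨f, hf, h1, h2⟩ := hS2 x x' hadj E hE hout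
  have hf' : IsCoup A x x' E f := ⟨hf, h1, h2⟩
  by_cases hx : x ∈ f
  · exact ⟨f, hf', hx⟩
  · have hx' : x' ∈ f := (coup_mem h hadj hE hf').resolve_left hx
    have hE' : E ∈ comps (gr A) {x', x} := by rw [Finset.pair_comm]; exact hE
    obtain ⟨_, hT1, _⟩ := coup_tight h hadj.symm hE' hf'.swap hx'
    obtain ⟨g, hg, hc⟩ := Crossed.cross h hT1 (hS1 _ hT1)
    obtain ⟨h3, h4⟩ := coup_block h hadj.symm hE' hf'.swap hx' hg hc
    exact ⟨g, h3.swap, h4⟩

theorem coup : StmtCoup := by
  intro V _ _ A x x' E h hS1 hS2 hadj hE hout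
  obtain ⟨f, hf, hx⟩ := exists_coup h hS1 hS2 hadj hE hout
  obtain ⟨hx', hT1, hT2⟩ := coup_tight h hadj hE hf hx
  refine ⟨f, hf.1, hx, hx', hf.2.1, hf.2.2, hT1, hT2, ?_, ?_⟩
  · intro u v hu hv
    exact coup_reach_out' h hadj hE (insert_subset_insert _ inter_subset_right) hu hv
  · intro u v hu hv
    refine coup_reach_in h hadj hE ?_ hu hv
    rw [Finset.disjoint_left]
    intro w hw hw'
    rcases mem_insert.1 hw with rfl | hw
    · exact hx' (mem_sdiff.1 hw').1
    · exact (mem_sdiff.1 hw').2 hw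

end Pool.Agent.Chrom
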