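import Pool.Agent.Lib_helper90.Chrom.NC

/-!
# Crossing sets: the parts and their outer component

Definitions for the never-stuck theorem (class NC with a root condition) and the working form of
the crossing lemma.
-/

open Finset

namespace Pool.Agent.Chrom

variable {V : Type*} [Fintype V] [DecidableEq V]

set_option linter.unusedSectionVars false

/-- members: minimal nonfaces with at least three elements -/
def Mem (A : Finset V → Prop) (f : Finset V) : Prop := MinNF A f ∧ 3 ≤ f.card

/-- the root condition: every tight face contains `a` or `b` or separates them -/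
def Root (A : Finset V → Prop) (a b : V) : Prop :=
  ∀ T, Tight A T → a ∈ T ∨ b ∈ T ∨ ¬ (del (gr A) T).Reachable a b

/-- all tight faces are crossed -/
def AllCrossed (A : Finset V → Prop) : Prop := ∀ T, Tight A T → Crossed A T

/-- every component of every clique cut has a coupling -/
def AllCoupled (A : Finset V → Prop) : Prop :=
  ∀ x x', (gr A).Adj x x' → ∀ E ∈ comps (gr A) {x, x'}, (∃ v, v ∉ E ∧ v ≠ x ∧ v ≠ x') →
    ∃ f, Mem A f ∧ (f ∩ E).Nonempty ∧ ∃ v ∈ f, v ∉ E ∧ v ≠ x ∧ v ≠ x'

/-- sets all of whose proper subsets are faces and with `c ≥ 0`: tight faces and members -/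
structure QT (A : Finset V → Prop) (S : Finset V) : Prop where
  sub : ∀ X, X ⊂ S → A X
  nonneg : 0 ≤ cc (gr A) S
  ne : S.Nonempty

/-- disjoint crossing sets -/
structure Cross (A : Finset V → Prop) (S T : Finset V) : Prop where
  disj : Disjoint S T
  qS : QT A S
  qT : QT A T
  two : 2 ≤ (meetComps (gr A) S T).card

variable {A : Finset V → Prop} {S T f g X C D E P : Finset V} {a b u v w x y z : V}

lemma Tight.qt (h : NC A) (hT : Tight A T) : QT A T where
  sub := fun X hX => h.down _ _ hX.subset hT.face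
  nonneg := hT.zero.ge
  ne := card_pos.1 (by have := hT.two; omega)

lemma Mem.qt (h : NC A) (hf : Mem A f) : QT A f where
  sub := hf.1.2
  nonneg := h.nonface f hf.1 hf.2
  ne := card_pos.1 (by have := hf.2; omega)

lemma QT.le (h : NC A) (hS : QT A S) : ∀ X, X ⊂ S → X.Nonempty → cc (gr A) X ≤ 0 :=
  fun X hX hne => h.face X (hS.sub X hX) hne

lemma Crossed.cross (h : NC A) (hT : Tight A T) (hc : Crossed A T) :
    ∃ f, Mem A f ∧ Cross A T f := by
  obtain ⟨f, hf, h3, hd, h2⟩ := hc
  exact ⟨f, ⟨hf, h3⟩, hd, hT.qt h, Mem.qt h ⟨hf, h3⟩, h2⟩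

lemma Cross.symm (h : NC A) (hc : Cross A S T) : Cross A T S where
  disj := hc.disj.symm
  qS := hc.qT
  qT := hc.qS
  two := cross_mutual h.conn hc.disj hc.qS.ne hc.qT.nonneg (hc.qT.le h) hc.two

lemma not_cross (h : NC A) (hf : Mem A f) (hg : Mem A g) : ¬ Cross A f g := by
  intro hc
  have := h.nocross f g hf.1 hg.1 hf.2 hg.2 hc.disj
  have := hc.two
  omega

/-- two points of `T` in different components of `G - S` give a crossing -/
lemma cross_of_not_reachable (hd : Disjoint S T) (hS : QT A S) (hT : QT A T) (hu : u ∈ T)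
    (hv : v ∈ T) (hr : ¬ (del (gr A) S).Reachable u v) : Cross A S T := by
  refine ⟨hd, hS, hT, ?_⟩
  by_contra hlt
  exact hr (reachable_of_meet_le hd (by omega) hu hv)

lemma Cross.exists_not_reachable (hc : Cross A S T) :
    ∃ u ∈ T, ∃ v ∈ T, ¬ (del (gr A) S).Reachable u v := by
  by_contra hno
  push Not at hno
  have := meet_le_of_reachable hno
  have := hc.two
  omega

/-- for every point of `T` there is another point of `T` in another component of `G - S` -/
lemma Cross.exists_other (hc : Cross A S T) (u : V) :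
    ∃ v ∈ T, ¬ (del (gr A) S).Reachable u v := by
  obtain ⟨p, hp, q, hq, hpq⟩ := hc.exists_not_reachable
  by_cases hup : (del (gr A) S).Reachable u p
  · exact ⟨q, hq, fun hr => hpq (hup.symm.trans hr)⟩
  · exact ⟨p, hp, hup⟩

lemma Cross.mem_meet (hC : C ∈ comps (gr A) S) (hm : (T ∩ C).Nonempty) :
    C ∈ meetComps (gr A) S T := by
  refine mem_meetComps.2 ⟨hC, ?_⟩
  obtain ⟨v, hv⟩ := hm
  rw [Finset.not_disjoint_iff]
  exact ⟨v, (mem_inter.1 hv).2, (mem_inter.1 hv).1⟩

lemma Cross.part_ssub (hc : Cross A S T) (hC : C ∈ comps (gr A) S) (hm : (T ∩ C).Nonempty) :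
    T ∩ C ⊂ T := (part_ssubset hc.two (Cross.mem_meet hC hm)).1

lemma Cross.part_face (hc : Cross A S T) (hC : C ∈ comps (gr A) S) (hm : (T ∩ C).Nonempty) :
    A (T ∩ C) := hc.qT.sub _ (hc.part_ssub hC hm)

lemma Cross.lemma (h : NC A) (hc : Cross A S T) :
    (meetComps (gr A) S T).card = (meetComps (gr A) T S).card ∧ cc (gr A) S = 0 ∧
      cc (gr A) T = 0 ∧
      (∀ C ∈ meetComps (gr A) S T, cc (gr A) (T ∩ C) = 0 ∧
        kk (gr A) (T ∩ C) = (avComps (gr A) T S C).card + 1) ∧
      (∀ C ∈ meetComps (gr A) T S, cc (gr A) (S ∩ C) = 0 ∧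
        kk (gr A) (S ∩ C) = (avComps (gr A) S T C).card + 1) :=
  cross_lemma h.conn hc.disj hc.qS.nonneg hc.qT.nonneg (hc.qS.le h) (hc.qT.le h) hc.two hc.qS.ne

lemma Cross.zeroS (h : NC A) (hc : Cross A S T) : cc (gr A) S = 0 := (hc.lemma h).2.1

lemma Cross.zeroT (h : NC A) (hc : Cross A S T) : cc (gr A) T = 0 := (hc.lemma h).2.2.1

/-- the parts are tight -/
lemma Cross.part_zero (h : NC A) (hc : Cross A S T) (hC : C ∈ comps (gr A) S)
    (hm : (T ∩ C).Nonempty) : cc (gr A) (T ∩ C) = 0 :=
  ((hc.lemma h).2.2.2.1 C (Cross.mem_meet hC hm)).1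

lemma Cross.part_tight (h : NC A) (hc : Cross A S T) (hC : C ∈ comps (gr A) S)
    (h2 : 2 ≤ (T ∩ C).card) : Tight A (T ∩ C) := by
  have hm : (T ∩ C).Nonempty := card_pos.1 (by omega)
  exact ⟨hc.part_face hC hm, h2, hc.part_zero h hC hm⟩

/-- the numbers of parts agree -/
lemma Cross.card_eq (h : NC A) (hc : Cross A S T) :
    (meetComps (gr A) S T).card = (meetComps (gr A) T S).card := (hc.lemma h).1

/-- **outer component**: a component of `G - (T ∩ C)` which contains a point outside `C`
contains all points outside `C`; the other ones are components of `G - T` inside `C`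
avoiding `S`. -/
lemma Cross.outer (h : NC A) (hc : Cross A S T) (hC : C ∈ comps (gr A) S)
    (hm : (T ∩ C).Nonempty) :
    ∃ O ∈ comps (gr A) (T ∩ C), (∀ v, v ∉ C → v ∈ O) ∧
      ∀ E ∈ comps (gr A) (T ∩ C), E ≠ O → E ∈ comps (gr A) T ∧ E ⊆ C ∧ Disjoint E S := by
  classical
  have hk := ((hc.lemma h).2.2.2.1 C (Cross.mem_meet hC hm)).2
  have hsub : avComps (gr A) T S C ⊆ comps (gr A) (T ∩ C) := fun E hE =>
    (mem_filter.1 (avComps_subset hc.disj hC hE)).1
  have hcard : (comps (gr A) (T ∩ C) \ avComps (gr A) T S C).card = 1 := by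
    rw [card_sdiff_of_subset hsub]
    have : (comps (gr A) (T ∩ C)).card = (avComps (gr A) T S C).card + 1 := hk
    omega
  obtain ⟨O, hO⟩ := card_eq_one.1 hcard
  have hOmem : O ∈ comps (gr A) (T ∩ C) ∧ O ∉ avComps (gr A) T S C := by
    have : O ∈ comps (gr A) (T ∩ C) \ avComps (gr A) T S C := by rw [hO]; simp
    exact mem_sdiff.1 this
  have hother : ∀ E ∈ comps (gr A) (T ∩ C), E ≠ O → E ∈ avComps (gr A) T S C := by
    intro E hE hne
    by_contra hno
    have : E ∈ comps (gr A) (T ∩ C) \ avComps (gr A) T S C := mem_sdiff.2 ⟨hE, hno⟩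
    rw [hO, mem_singleton] at this
    exact hne this
  refine ⟨O, hOmem.1, fun v hv => ?_, fun E hE hne => ?_⟩
  · have hv' : v ∉ T ∩ C := fun hv' => hv (mem_inter.1 hv').2
    obtain ⟨E, hE, hvE⟩ := exists_comps (G := gr A) hv'
    by_cases hne : E = O
    · rw [← hne]; exact hvE
    · exact absurd ((mem_avComps.1 (hother E hE hne)).2.1 hvE) hv
  · exact mem_avComps.1 (hother E hE hne)

/-- all points outside `C` are connected in `G - (T ∩ C)` -/
lemma Cross.reach (h : NC A) (hc : Cross A S T) (hC : C ∈ comps (gr A) S)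
    (hm : (T ∩ C).Nonempty) (hu : u ∉ C) (hv : v ∉ C) :
    (del (gr A) (T ∩ C)).Reachable u v := by
  obtain ⟨O, hO, h1, _⟩ := hc.outer h hC hm
  rw [← mem_comp, comp_eq_of_mem_comps hO (h1 u hu)]
  exact h1 v hv

/-- root consequence: the component containing a nonsingle part contains a root -/
lemma Cross.root_mem (h : NC A) (hr : Root A a b) (hc : Cross A S T) (hC : C ∈ comps (gr A) S)
    (h2 : 2 ≤ (T ∩ C).card) : a ∈ C ∨ b ∈ C := by
  have hm : (T ∩ C).Nonempty := card_pos.1 (by omega)
  by_contra hno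
  push Not at hno
  rcases hr _ (hc.part_tight h hC h2) with h1 | h1 | h1
  · exact hno.1 (mem_inter.1 h1).2
  · exact hno.2 (mem_inter.1 h1).2
  · exact h1 (hc.reach h hC hm hno.1 hno.2)

/-! ### General facts about cuts -/

/-- the graph of a state in NC has no cut vertex: a set closed outside `{x}` is everything -/
lemma exists_adj_out (h : NC A) (hu : u ∈ E) (hxE : x ∉ E) (hv : v ∉ E) (hvx : v ≠ x) :
    ∃ p ∈ E, ∃ q, q ∉ E ∧ q ≠ x ∧ (gr A).Adj p q := by
  have hk : kk (gr A) {x} ≤ 1 := by
    have := h.face {x} (h.sing x) (singleton_nonempty x)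
    unfold cc at this
    rw [card_singleton] at this
    omega
  by_contra hno
  push Not at hno
  have hux : u ∉ ({x} : Finset V) := by
    rw [mem_singleton]; rintro rfl; exact hxE hu
  have hvx' : v ∉ ({x} : Finset V) := by rw [mem_singleton]; exact hvx
  have h1 := card_le_one.1 hk _ (comp_mem_comps hux) _ (comp_mem_comps hvx')
  have h2 : v ∈ comp (gr A) {x} u := by rw [h1]; exact self_mem_comp v
  rw [mem_comp] at h2
  have hcl : Closed (gr A) {x} E := by
    intro p hp q hpq hq
    by_contra hqE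
    exact hno p hp q hqE (by rwa [mem_singleton] at hq) hpq
  exact hv (reachable_closed hcl hu h2).1

end Pool.Agent.Chrom
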