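import Pool.Agent.Lib_helper46.Chrom.Coup

/-!
# The never-stuck theorem: assembly (note 1214, section 5.2)
-/

open Finset

namespace Pool.Agent.Chrom

set_option linter.unusedSectionVars false

theorem ns_of (hLR : StmtLemmaR) (hStr : StmtStr) (hYb : StmtYbig) (hYo : StmtYone)
    (hQ : StmtLemmaQ) (hDT : StmtDegTwo) : StmtNS := by
  classical
  intro V _ _ A a b h hr h4 hS1 hS2
  -- `a` has a neighbour
  have hnbr : ∃ v, (gr A).Adj a v := by
    obtain ⟨c, hc⟩ : ∃ c, c ≠ a := by
      have : 1 < Fintype.card V := by omega
      obtain ⟨c, hc⟩ := Fintype.exists_ne_of_one_lt_card this a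
      exact ⟨c, hc⟩
    obtain ⟨d, hd⟩ : ∃ d, d ∉ ({a, c} : Finset V) := by
      by_contra hno
      push Not at hno
      have h1 : (univ : Finset V) ⊆ {a, c} := fun x _ => hno x
      have h2 := card_le_card h1
      have h3 := card_le_two (a := a) (b := c)
      rw [card_univ] at h2
      omega
    simp only [mem_insert, mem_singleton, not_or] at hd
    obtain ⟨p, hp, q, _, _, hpq⟩ := exists_adj_out (E := {a}) (x := c) (v := d) h
      (mem_singleton_self a) (by simpa using hc) (by simpa using hd.1) hd.2
    rw [mem_singleton] at hp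
    subst hp
    exact ⟨q, hpq⟩
  by_cases hH : ∀ T, Tight A T → a ∉ T → ∀ v, (gr A).Adj a v → v ∈ T
  · refine ⟨hLR V A a h h4 hS1 hS2 hH, ?_⟩
    obtain ⟨v, hv⟩ := hnbr
    refine ⟨a, v, hv, fun T hT => ?_⟩
    by_cases ha : a ∈ T
    · exact Or.inl ha
    · exact Or.inr (hH T hT ha v hv)
  · exfalso
    push Not at hH
    obtain ⟨T0, hT0, haT0, v0, hav0, hv0⟩ := hH
    -- a big tight face
    have hne : (univ.filter fun T : Finset V => Tight A T ∧ a ∉ T).Nonempty :=
      ⟨T0, by simp [hT0, haT0]⟩
    obtain ⟨D1, hD1, hmax⟩ := exists_max_image _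
      (fun T : Finset V => (comp (gr A) T a).card) hne
    have hne2 : (univ.filter fun T : Finset V => (Tight A T ∧ a ∉ T) ∧
        (comp (gr A) T a).card = (comp (gr A) D1 a).card).Nonempty :=
      ⟨D1, by rw [mem_filter] at hD1 ⊢; exact ⟨hD1.1, hD1.2, rfl⟩⟩
    obtain ⟨D, hD, hmin⟩ := exists_min_image _ (fun T : Finset V => T.card) hne2
    rw [mem_filter] at hD
    obtain ⟨-, ⟨hDt, haD⟩, hDc⟩ := hD
    have hbig : Big A a D := by
      refine ⟨hDt, haD, fun X hX hXt => ?_, fun T hT haT => ?_⟩
      · have haX : a ∉ X := fun hh => haD (hX.subset hh)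
        have h1 : (comp (gr A) D a).card ≤ (comp (gr A) X a).card :=
          card_le_card (comp_anti hX.subset a)
        have h2 := hmax X (by simp [hXt, haX])
        have h3 := hmin X (by
          rw [mem_filter]
          exact ⟨mem_univ _, ⟨hXt, haX⟩, by omega⟩)
        have h5 := card_lt_card hX
        omega
      · have := hmax T (by simp [hT, haT])
        omega
    have hC2 : 2 ≤ (comp (gr A) D a).card := by
      have h1 : ({a, v0} : Finset V) ⊆ comp (gr A) T0 a := by
        rw [pair_subset_iff]
        refine ⟨self_mem_comp a, mem_comp.2 (SimpleGraph.Adj.reachable ⟨hav0, haT0, hv0⟩)⟩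
      have h2 := card_le_card h1
      rw [card_pair hav0.ne] at h2
      exact h2.trans (hbig.max T0 hT0 haT0)
    obtain ⟨f, hf, hc⟩ := Crossed.cross h hDt (hS1 _ hDt)
    have hS := hStr V A a D f h hS1 hS2 hbig hf hc
    by_cases h3 : 3 ≤ D.card
    · by_cases hY : 2 ≤ (f ∩ comp (gr A) D a).card
      · exact hYb V A a D f h hS1 hS2 hbig hS h3 hY
      · have hY1 : (f ∩ comp (gr A) D a).card = 1 := by
          have := card_pos.2 hS.yne
          omega
        exact hYo V A a b D f h hr hS1 hS2 hbig hS h3 hY1 hC2
    · -- `D` is a pair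
      have hD2 : D.card = 2 := by have := hDt.two; omega
      obtain ⟨u, v, huv, hDuv⟩ := card_eq_two.1 hD2
      have hnadj : ¬ (gr A).Adj u v := h.not_adj hDt.face (by rw [hDuv]; simp)
        (by rw [hDuv]; simp)
      have hcard := hS.card
      obtain ⟨z, hz⟩ := card_eq_one.1 (show (univ \ (D ∪ comp (gr A) D a)).card = 1 by omega)
      have hzmem : z ∈ univ \ (D ∪ comp (gr A) D a) := by rw [hz]; exact mem_singleton_self z
      have honly : ∀ x, x ∉ D → x ∉ comp (gr A) D a → x = z := by
        intro x hx hx'
        have : x ∈ univ \ (D ∪ comp (gr A) D a) := by simp [hx, hx']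
        rwa [hz, mem_singleton] at this
      simp only [mem_sdiff, mem_univ, true_and, mem_union, not_or] at hzmem
      obtain ⟨hzD, hzC⟩ := hzmem
      have hnbD : ∀ w, (gr A).Adj z w → w ∈ D := hS.zn z hzD hzC
      have hzu : z ≠ u := fun he => hzD (by rw [hDuv, he]; simp)
      have hzv : z ≠ v := fun he => hzD (by rw [hDuv, he]; simp)
      have key : ∀ x, x ∈ D → ∀ y, y ∈ D → x ≠ y → (gr A).Adj z y := by
        intro x hx y hy hxy
        obtain ⟨s, hs, t, _, htx, hst⟩ := exists_adj_out (E := {z}) (x := x) (v := y) h
          (mem_singleton_self z) (by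
            rw [mem_singleton]; rintro rfl; exact hzD hx) (by
            rw [mem_singleton]; rintro rfl; exact hzD hy) hxy.symm
        rw [mem_singleton] at hs
        subst hs
        have htD := hnbD t hst
        have hty : t = y := by
          rw [hDuv] at htD hx hy
          simp only [mem_insert, mem_singleton] at htD hx hy
          rcases htD with rfl | rfl <;> rcases hx with rfl | rfl <;> rcases hy with rfl | rfl <;>
            first | rfl | exact absurd rfl htx | exact absurd rfl hxy
        rw [← hty]; exact hst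
      have huD : u ∈ D := by rw [hDuv]; simp
      have hvD : v ∈ D := by rw [hDuv]; simp
      have hnb : ∀ w, (gr A).Adj z w ↔ w = u ∨ w = v := by
        intro w
        constructor
        · intro hw
          have := hnbD w hw
          rw [hDuv] at this
          simpa using this
        · rintro (rfl | rfl)
          · exact key v hvD w huD huv.symm
          · exact key u huD w hvD huv
      have hbnot : b ∈ D ∨ b ∉ comp (gr A) D a := by
        rcases hr D hDt with h1 | h1 | h1
        · exact absurd h1 haD
        · exact Or.inl h1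
        · exact Or.inr fun hh => h1 (mem_comp.1 hh)
      by_cases hbD : b ∈ D
      · rw [hDuv, mem_insert, mem_singleton] at hbD
        rcases hbD with rfl | rfl
        · exact hQ V A a b v z h hr h4 hS1 hnb huv hnadj
        · refine hQ V A a b u z h hr h4 hS1 (fun w => ?_) huv.symm (fun hh => hnadj hh.symm)
          rw [hnb w, or_comm]
      · have hbz : b = z := honly b hbD (hbnot.resolve_left hbD)
        subst hbz
        exact hDT V A a u v b h hr h4 hS1 hS2 hnb huv hnadj

end Pool.Agent.Chrom
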