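import Pool.Agent.Lib_helper46.Chrom.NS
import Pool.Agent.Lib_helper46.Chrom.DegTwo
import Pool.Agent.Lib_helper76.Chrom.Str
import Pool.Agent.Lib_helper58.Chrom.LemmaR
import Pool.Agent.Lib_helper63.Chrom.LemmaP
import Pool.Agent.Lib_helper39.Chrom.LemmaM
import Pool.Agent.Lib_helper69.Chrom.Ybig
import Pool.Agent.Lib_helper95.Chrom.Yone
import Pool.Agent.Lib_helper88.Chrom.LemmaQ

/-!
# The never-stuck theorem
-/

namespace Pool.Agent.Chrom

theorem ns : StmtNS :=
  ns_of (lemmaR coup) (str_thm coup) (ybig (lemmaP (str_thm coup)) lemmaM)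
    (yone coup (lemmaP (str_thm coup)) lemmaM) lemmaQ (degTwo coup lemmaQ)

end Pool.Agent.Chrom
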