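import Pool.Agent.Lib_helper46.Chrom.Coup

/-!
# Degree two vertices (note 1214, section 5.8): existence of a partner
-/

open Finset

namespace Pool.Agent.Chrom

variable {V : Type} [Fintype V] [DecidableEq V]

set_option linter.unusedSectionVars false

variable {A : Finset V → Prop} {S T f g X C D E P W : Finset V} {a b p q u v w x x' y z : V}

lemma face_pair_of_not_adj (huv : u ≠ v) (hna : ¬ (gr A).Adj u v) : A {u, v} := by
  by_contra hA
  exact hna ⟨huv, hA⟩

lemma two_le_kk_of_not_mem {G : SimpleGraph V} (hp : p ∉ S) (hq : q ∉ S)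
    (hpq : q ∉ comp G S p) : 2 ≤ kk G S := by
  classical
  have hne : comp G S p ≠ comp G S q := fun he => hpq (he ▸ self_mem_comp q)
  have hsub : ({comp G S p, comp G S q} : Finset (Finset V)) ⊆ comps G S := by
    intro C hC
    rcases mem_insert.1 hC with rfl | hC
    · exact comp_mem_comps hp
    · rw [mem_singleton.1 hC]; exact comp_mem_comps hq
  have := card_le_card hsub
  rwa [card_pair hne] at this

/-- a nonadjacent 2-cut is a tight face -/
lemma tight_pair (h : NC A) (huv : u ≠ v) (hna : ¬ (gr A).Adj u v) (hp : p ∉ ({u, v} : Finset V))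
    (hq : q ∉ ({u, v} : Finset V)) (hpq : q ∉ comp (gr A) {u, v} p) : Tight A {u, v} := by
  have hA := face_pair_of_not_adj huv hna
  have h2 := two_le_kk_of_not_mem hp hq hpq
  have hc := h.face _ hA ⟨u, by simp⟩
  refine ⟨hA, (card_pair huv).ge, ?_⟩
  unfold cc at hc ⊢
  rw [card_pair huv] at hc ⊢
  omega

/-- a tight pair has exactly two components -/
lemma mem_comp_of_tight_pair (hT : Tight A {u, v}) (huv : u ≠ v) (hp : p ∉ ({u, v} : Finset V))
    (hq : q ∉ ({u, v} : Finset V)) (hpq : q ∉ comp (gr A) {u, v} p)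
    (hx : x ∉ ({u, v} : Finset V)) (hxp : x ∉ comp (gr A) {u, v} p) :
    x ∈ comp (gr A) {u, v} q := by
  classical
  have hk : (comps (gr A) {u, v}).card = 2 := by
    have := hT.zero
    unfold cc kk at this
    rw [card_pair huv] at this
    omega
  by_contra hno
  have h1 : comp (gr A) {u, v} p ≠ comp (gr A) {u, v} q := fun he => hpq (he ▸ self_mem_comp q)
  have h2 : comp (gr A) {u, v} p ≠ comp (gr A) {u, v} x := fun he => hxp (he ▸ self_mem_comp x)
  have h3 : comp (gr A) {u, v} q ≠ comp (gr A) {u, v} x := fun he => hno (he ▸ self_mem_comp x)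
  have hsub : ({comp (gr A) {u, v} p, comp (gr A) {u, v} q, comp (gr A) {u, v} x} :
      Finset (Finset V)) ⊆ comps (gr A) {u, v} := by
    intro C hC
    rcases mem_insert.1 hC with rfl | hC
    · exact comp_mem_comps hp
    rcases mem_insert.1 hC with rfl | hC
    · exact comp_mem_comps hq
    · rw [mem_singleton.1 hC]; exact comp_mem_comps hx
  have h4 := card_le_card hsub
  rw [card_eq_three.2 ⟨_, _, _, h1, h2, h3, rfl⟩] at h4
  omega

/-- the situation of 5.8: `z` has the two neighbours `u`, `v`, which are not adjacent -/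
structure Deg2 (A : Finset V → Prop) (z u v : V) : Prop where
  nb : ∀ w, (gr A).Adj z w ↔ w = u ∨ w = v
  ne : u ≠ v
  na : ¬ (gr A).Adj u v

namespace Deg2

lemma symm (hd : Deg2 A z u v) : Deg2 A z v u where
  nb := fun w => by rw [hd.nb w, or_comm]
  ne := hd.ne.symm
  na := fun h => hd.na h.symm

lemma zu (hd : Deg2 A z u v) : (gr A).Adj z u := (hd.nb u).2 (Or.inl rfl)

lemma zv (hd : Deg2 A z u v) : (gr A).Adj z v := (hd.nb v).2 (Or.inr rfl)

lemma z_not_mem (hd : Deg2 A z u v) : z ∉ ({u, v} : Finset V) := by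
  have h1 := hd.zu.ne
  have h2 := hd.zv.ne
  simp [h1, h2]

lemma comp_z (hd : Deg2 A z u v) : comp (gr A) {u, v} z = {z} := by
  have hcl : Closed (gr A) {u, v} {z} := by
    intro p hp q hpq hq
    rw [mem_singleton] at hp
    subst hp
    rw [hd.nb] at hpq
    simp only [mem_insert, mem_singleton, not_or] at hq
    tauto
  ext x
  constructor
  · intro hx
    exact (reachable_closed hcl (mem_singleton_self z) (mem_comp.1 hx)).1
  · intro hx
    rw [mem_singleton.1 hx]
    exact self_mem_comp z

lemma exists_fourth (hd : Deg2 A z u v) (h4 : 4 ≤ Fintype.card V) : ∃ q, q ∉ ({z, u, v} : Finset V) := by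
  by_contra hno
  push Not at hno
  have h1 : (univ : Finset V) ⊆ {z, u, v} := fun x _ => hno x
  have h2 := card_le_card h1
  have h3 := card_le_three (a := z) (b := u) (c := v)
  rw [card_univ] at h2
  omega

lemma tight (h : NC A) (hd : Deg2 A z u v) (h4 : 4 ≤ Fintype.card V) : Tight A {u, v} := by
  obtain ⟨q, hq⟩ := hd.exists_fourth h4
  simp only [mem_insert, mem_singleton, not_or] at hq
  refine tight_pair h hd.ne hd.na hd.z_not_mem (q := q) ?_ ?_
  · simp [hq.2.1, hq.2.2]
  · rw [hd.comp_z, mem_singleton]; exact hq.1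

lemma mem_big (h : NC A) (hd : Deg2 A z u v) (h4 : 4 ≤ Fintype.card V)
    (hx : x ∉ ({z, u, v} : Finset V)) (hy : y ∉ ({z, u, v} : Finset V)) :
    y ∈ comp (gr A) {u, v} x := by
  simp only [mem_insert, mem_singleton, not_or] at hx hy
  refine mem_comp_of_tight_pair (hd.tight h h4) hd.ne hd.z_not_mem (q := x) ?_ ?_ ?_ ?_
  · simp [hx.2.1, hx.2.2]
  · rw [hd.comp_z, mem_singleton]; exact hx.1
  · simp [hy.2.1, hy.2.2]
  · rw [hd.comp_z, mem_singleton]; exact hy.1

end Deg2

/-- the data of 5.8 at a member `f` through `z` -/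
structure ThruZ (A : Finset V → Prop) (z u v : V) (f : Finset V) : Prop where
  mem : Mem A f
  zf : z ∈ f
  uf : u ∉ f
  vf : v ∉ f
  cross : Cross A {u, v} f
  tight : Tight A (f.erase z)
  zu : (del (gr A) (f.erase z)).Reachable z u
  zv : (del (gr A) (f.erase z)).Reachable z v
  uv : ¬ (del (gr A) f).Reachable u v

lemma thruZ (h : NC A) (hd : Deg2 A z u v) (h4 : 4 ≤ Fintype.card V) (hf : Mem A f)
    (hz : z ∈ f) : ThruZ A z u v f := by
  have huf : u ∉ f := fun hu => hf.not_adj hz hu hd.zu
  have hvf : v ∉ f := fun hv => hf.not_adj hz hv hd.zv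
  have hdisj : Disjoint ({u, v} : Finset V) f := by
    rw [Finset.disjoint_left]
    intro w hw
    rcases mem_insert.1 hw with rfl | hw
    · exact huf
    · rw [mem_singleton.1 hw]; exact hvf
  have hT := hd.tight h h4
  obtain ⟨y, hy, hyz⟩ : ∃ y ∈ f, y ≠ z := by
    obtain ⟨y, hy, hne⟩ := Finset.exists_mem_ne (s := f) (by have := hf.2; omega) z
    exact ⟨y, hy, hne⟩
  have hy3 : y ∉ ({z, u, v} : Finset V) := by
    simp only [mem_insert, mem_singleton, not_or]
    exact ⟨hyz, fun he => huf (he ▸ hy), fun he => hvf (he ▸ hy)⟩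
  have hzy : ¬ (del (gr A) {u, v}).Reachable z y := by
    intro hr
    rw [← mem_comp, hd.comp_z, mem_singleton] at hr
    exact hyz hr
  have hc : Cross A {u, v} f := cross_of_not_reachable hdisj (hT.qt h) (hf.qt h) hz hy hzy
  have hyuv : y ∉ ({u, v} : Finset V) := fun hh => hy3 (mem_insert_of_mem hh)
  have hCmem : comp (gr A) {u, v} y ∈ comps (gr A) {u, v} := comp_mem_comps hyuv
  have hpart : f ∩ comp (gr A) {u, v} y = f.erase z := by
    ext x
    rw [mem_inter, mem_erase]
    constructor
    · rintro ⟨h1, h2⟩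
      refine ⟨?_, h1⟩
      rintro rfl
      exact hzy (mem_comp.1 h2).symm
    · rintro ⟨h1, h2⟩
      refine ⟨h2, hd.mem_big h h4 hy3 ?_⟩
      simp only [mem_insert, mem_singleton, not_or]
      exact ⟨h1, fun he => huf (he ▸ h2), fun he => hvf (he ▸ h2)⟩
  have hcard : 2 ≤ (f ∩ comp (gr A) {u, v} y).card := by
    rw [hpart, card_erase_of_mem hz]
    have := hf.2
    omega
  have hzC : z ∉ comp (gr A) {u, v} y := fun hh => hzy (mem_comp.1 hh).symm
  have huC : u ∉ comp (gr A) {u, v} y := fun hh =>
    Finset.disjoint_left.1 (comps_disjoint_S hCmem) hh (by simp)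
  have hvC : v ∉ comp (gr A) {u, v} y := fun hh =>
    Finset.disjoint_left.1 (comps_disjoint_S hCmem) hh (by simp)
  have hne : (f ∩ comp (gr A) {u, v} y).Nonempty := card_pos.1 (by omega)
  refine ⟨hf, hz, huf, hvf, hc, ?_, ?_, ?_, ?_⟩
  · rw [← hpart]; exact hc.part_tight h hCmem hcard
  · rw [← hpart]; exact hc.reach h hCmem hne hzC huC
  · rw [← hpart]; exact hc.reach h hCmem hne hzC hvC
  · intro hr
    obtain ⟨p, hp, q, hq, hpq⟩ := (hc.symm h).exists_not_reachable
    rw [mem_insert, mem_singleton] at hp hq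
    rcases hp with rfl | rfl <;> rcases hq with rfl | rfl
    · exact hpq (SimpleGraph.Reachable.refl _)
    · exact hpq hr
    · exact hpq hr.symm
    · exact hpq (SimpleGraph.Reachable.refl _)

/-- **existence of a partner** (b = z) -/
theorem exists_partner (h : NC A) (hr : Root A a z) (h4 : 4 ≤ Fintype.card V)
    (hS1 : AllCrossed A) (hd : Deg2 A z u v) : ∃ w, w ≠ z ∧ Tight A {z, w} := by
  classical
  set G := gr A with hG
  -- members through `z`
  obtain ⟨f0, hf0, hc0⟩ := Crossed.cross h (hd.tight h h4) (hS1 _ (hd.tight h h4))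
  have hzf0 : z ∈ f0 := by
    obtain ⟨q, hq4⟩ := hd.exists_fourth h4
    by_contra hz
    obtain ⟨s, hs, t, ht, hst⟩ := hc0.exists_not_reachable
    have key : ∀ s ∈ f0, s ∉ ({z, u, v} : Finset V) := by
      intro s hs
      simp only [mem_insert, mem_singleton, not_or]
      refine ⟨fun he => hz (he ▸ hs), fun he => ?_, fun he => ?_⟩
      · exact Finset.disjoint_left.1 hc0.disj (mem_insert_self u _) (he ▸ hs)
      · exact Finset.disjoint_left.1 hc0.disj (by simp : v ∈ ({u, v} : Finset V)) (he ▸ hs)
    exact hst (mem_comp.1 (hd.mem_big h h4 (key s hs) (key t ht)))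
  -- a member with the largest component of `v`
  have hne : (univ.filter fun f : Finset V => Mem A f ∧ z ∈ f).Nonempty :=
    ⟨f0, by simp [hf0, hzf0]⟩
  obtain ⟨f, hfm, hmax⟩ := exists_max_image _ (fun f : Finset V => (comp G f v).card) hne
  rw [mem_filter] at hfm
  obtain ⟨-, hf, hzf⟩ := hfm
  have hF := thruZ h hd h4 hf hzf
  set Y := f.erase z with hY
  have hYf : Y ⊆ f := erase_subset _ _
  have hzY : z ∉ Y := by rw [hY]; simp
  have hfY : ∀ x ∈ f, x ≠ z → x ∈ Y := fun x hx hxz => mem_erase.2 ⟨hxz, hx⟩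
  -- `a` is outside the component of `z`
  have haM : a ∉ comp G Y z := by
    intro ha
    rw [mem_comp] at ha
    rcases hr _ hF.tight with h1 | h1 | h1
    · exact not_mem_of_reachable ha hzY h1
    · exact hzY h1
    · exact h1 ha.symm
  obtain ⟨g, hg, hc⟩ := Crossed.cross h hF.tight (hS1 _ hF.tight)
  have hzg : z ∈ g := by
    by_contra hz
    have hdis : Disjoint g f := by
      rw [Finset.disjoint_left]
      intro x hx hxf
      by_cases hxz : x = z
      · exact hz (hxz ▸ hx)
      · exact Finset.disjoint_left.1 hc.disj (hfY x hxf hxz) hx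
    obtain ⟨s, hs, t, ht, hst⟩ := (hc.symm h).exists_not_reachable
    exact not_cross h hg hf (cross_of_not_reachable hdis (hg.qt h) (hf.qt h) (hYf hs) (hYf ht) hst)
  have hug : u ∉ g := fun hh => hg.not_adj hzg hh hd.zu
  have hvg : v ∉ g := fun hh => hg.not_adj hzg hh hd.zv
  have hYg : ∀ x ∈ Y, x ∉ g := fun x hx => Finset.disjoint_left.1 hc.disj hx
  set M := comp G Y z with hM
  have hMc : M ∈ comps G Y := comp_mem_comps hzY
  have hzM : z ∈ M := self_mem_comp z
  have huM : u ∈ M := mem_comp.2 hF.zu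
  have hvM : v ∈ M := mem_comp.2 hF.zv
  have hm : (g ∩ M).Nonempty := ⟨z, mem_inter.2 ⟨hzg, hzM⟩⟩
  obtain ⟨O, hO, hO1, hO2⟩ := hc.outer h hMc hm
  set S := g ∩ M with hS
  have hzS : z ∈ S := mem_inter.2 ⟨hzg, hzM⟩
  have hSface : A S := hc.part_face hMc hm
  have hScc : cc G S = 0 := hc.part_zero h hMc hm
  have hYO : ∀ x ∈ Y, x ∈ O := fun x hx => hO1 x fun hxM =>
    Finset.disjoint_left.1 (comps_disjoint_S hMc) hxM hx
  have haO : a ∈ O := hO1 a haM
  -- the component `K` of `v` in `G - f`
  set K := comp G f v with hK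
  have hKc : K ∈ comps G f := comp_mem_comps hF.vf
  have hvK : v ∈ K := self_mem_comp v
  have hKf : ∀ x ∈ K, x ∉ f := fun x hx => Finset.disjoint_left.1 (comps_disjoint_S hKc) hx
  have hKM : K ⊆ M := by
    intro x hx
    have h1 : x ∈ comp G Y v := comp_anti hYf v hx
    rw [comp_eq_of_mem hvM] at h1
    exact h1
  have huK : u ∉ K := fun hh => hF.uv (mem_comp.1 hh).symm
  have hzK : z ∉ K := fun hh => hKf z hh hzf
  set W := g ∩ K with hW
  have hWS : W ⊆ S := inter_subset_inter (Subset.refl _) hKM
  -- `W` is nonempty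
  have hWne : W.Nonempty := by
    by_contra hemp
    rw [Finset.not_nonempty_iff_eq_empty, hW, ← disjoint_iff_inter_eq_empty] at hemp
    obtain ⟨p, hp, q, hq, hqz, hpq⟩ := exists_adj_out h hvK hzK huK hd.zu.ne'
    have hqf : q ∈ f := by
      by_contra hqf
      exact hq (comps_closed hKc hp hpq hqf)
    have hqg : q ∉ g := hYg q (hfY q hqf hqz)
    have hsub : insert q K ⊆ comp G g v := by
      intro x hx
      have hKsub := conn_subset_comp (comps_conn hKc) hemp.symm hvK
      rcases mem_insert.1 hx with rfl | hx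
      · have h1 := hKsub hp
        rw [mem_comp] at h1 ⊢
        exact h1.trans (SimpleGraph.Adj.reachable ⟨hpq, Finset.disjoint_right.1 hemp hp, hqg⟩)
      · exact hKsub hx
    have h1 := card_le_card hsub
    rw [card_insert_of_notMem hq] at h1
    have h2 := hmax g (by simp [hg, hzg])
    omega
  -- counting
  set B := (comps G S).filter (fun B => B ⊆ K ∧ v ∉ B) with hB
  have hWK : W ⊆ K := inter_subset_right
  have hBW : insert (comp G W z) B ⊆ comps G W := by
    intro C hC
    rcases mem_insert.1 hC with rfl | hC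
    · exact comp_mem_comps fun hz => hzK (hWK hz)
    · rw [hB, mem_filter] at hC
      refine comps_of_comps hC.1 ((comps_disjoint_S hC.1).mono_right hWS) ?_
      intro s hs t hst htC
      have htS : t ∈ S := by
        by_contra htS
        exact htC (comps_closed hC.1 hs hst htS)
      have htg : t ∈ g := (mem_inter.1 htS).1
      refine mem_inter.2 ⟨htg, ?_⟩
      refine comps_closed hKc (hC.2.1 hs) hst fun htf => ?_
      by_cases htz : t = z
      · subst htz
        rcases (hd.nb s).1 hst.symm with rfl | rfl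
        · exact huK (hC.2.1 hs)
        · exact hC.2.2 hs
      · exact hYg t (hfY t htf htz) htg
  have hzB : comp G W z ∉ B := by
    intro hh
    rw [hB, mem_filter] at hh
    exact hzK (hh.2.1 (self_mem_comp z))
  have hBk : B.card + 1 ≤ kk G W := by
    rw [← card_insert_of_notMem hzB]
    exact card_le_card hBW
  have hWface : A W := h.down _ _ hWS hSface
  have hWcc : cc G W ≤ 0 := h.face W hWface hWne
  have hSWface : A (S \ W) := h.down _ _ sdiff_subset hSface
  have hSWcc : cc G (S \ W) ≤ 0 :=
    h.face (S \ W) hSWface ⟨z, mem_sdiff.2 ⟨hzS, fun hz => hzK (hWK hz)⟩⟩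
  have hnear : nearComps G S W ⊆ insert O (insert (comp G S v) B) := by
    intro C hC
    obtain ⟨hC1, w, hw, c, hc', hwc⟩ := mem_nearComps.1 hC
    rw [mem_insert, mem_insert]
    by_cases hCO : C = O
    · exact Or.inl hCO
    right
    by_cases hvC : v ∈ C
    · exact Or.inl (comp_eq_of_mem_comps hC1 hvC).symm
    right
    rw [hB, mem_filter]
    refine ⟨hC1, ?_, hvC⟩
    have hCY : ∀ x ∈ C, x ∉ Y := fun x hx hxY => hCO (comps_eq_of_mem hC1 hO hx (hYO x hxY))
    have hCz : z ∉ C := fun hz => Finset.disjoint_left.1 (comps_disjoint_S hC1) hz hzS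
    have hCf : ∀ x ∈ C, x ∉ f := fun x hx hxf =>
      hCY x hx (hfY x hxf fun he => hCz (he ▸ hx))
    have hcK : c ∈ K := comps_closed hKc (hWK hw) hwc (hCf c hc')
    have := conn_subset_comp (comps_conn hC1) (by
      rw [Finset.disjoint_left]; exact hCf) hc'
    rwa [comp_eq_of_mem_comps hKc hcK] at this
  have hn1 := card_le_card hnear
  have hn2 := card_insert_le O (insert (comp G S v) B)
  have hn3 := card_insert_le (comp G S v) B
  have hk := le_kk_sdiff (G := G) hWS hWne
  have hcardS := card_sdiff_of_subset hWS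
  have hcardle := card_le_card hWS
  unfold cc at hWcc hSWcc hScc
  have hkW : kk G W = W.card := by omega
  have hBcard : B.card + 1 = W.card := by omega
  have hvO : v ∉ O := by
    intro hvO
    have he : comp G S v = O := comp_eq_of_mem_comps hO hvO
    rw [he, insert_idem] at hn1
    have := card_insert_le O B
    omega
  -- `W` is single
  have hW1 : W.card = 1 := by
    by_contra hne1
    have hpos := card_pos.2 hWne
    have hWt : Tight A W := ⟨hWface, by omega, show cc G W = 0 by unfold cc; omega⟩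
    have heq : insert (comp G W z) B = comps G W := by
      refine Finset.eq_of_subset_of_card_le hBW ?_
      rw [card_insert_of_notMem hzB]
      unfold kk at hkW
      omega
    have haW : a ∉ W := fun ha => haM (hKM (hWK ha))
    have hcomp : comp G W a ∈ insert (comp G W z) B := by
      rw [heq]; exact comp_mem_comps haW
    rcases mem_insert.1 hcomp with h1 | h1
    · rcases hr W hWt with h2 | h2 | h2
      · exact haW h2
      · exact hzK (hWK h2)
      · refine h2 ?_
        rw [← mem_comp, h1]
        exact self_mem_comp z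
    · rw [hB, mem_filter] at h1
      exact haM (hKM (h1.2.1 (self_mem_comp a)))
  obtain ⟨w, hw⟩ := card_eq_one.1 hW1
  have hwW : w ∈ W := by rw [hw]; exact mem_singleton_self w
  have hwg : w ∈ g := (mem_inter.1 hwW).1
  have hwK : w ∈ K := hWK hwW
  have hwz : w ≠ z := fun he => hzK (he ▸ hwK)
  refine ⟨w, hwz, ?_⟩
  -- the component of `v` in `G - S`
  set R := comp G S v with hR
  have hvS : v ∉ S := fun hh => hvg (mem_inter.1 hh).1
  have hRc : R ∈ comps G S := comp_mem_comps hvS
  have hRO : R ≠ O := fun he => hvO (he ▸ self_mem_comp v)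
  have hRf : ∀ x ∈ R, x ∉ f := by
    intro x hx hxf
    have hxz : x ≠ z := fun he => Finset.disjoint_left.1 (comps_disjoint_S hRc) hx (he ▸ hzS)
    exact hRO (comps_eq_of_mem hRc hO hx (hYO x (hfY x hxf hxz)))
  have hRK : R ⊆ K := by
    have := conn_subset_comp (comps_conn hRc) (by
      rw [Finset.disjoint_left]; exact hRf) (self_mem_comp v)
    exact this
  have hRzw : R ∈ comps G {z, w} := by
    refine comps_of_comps hRc ?_ ?_
    · rw [Finset.disjoint_left]
      intro x hx hxzw
      rcases mem_insert.1 hxzw with rfl | h1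
      · exact hzK (hRK hx)
      · rw [mem_singleton] at h1
        subst h1
        exact Finset.disjoint_left.1 (comps_disjoint_S hRc) hx (hWS hwW)
    · intro s hs t hst htR
      have htS : t ∈ S := by
        by_contra htS
        exact htR (comps_closed hRc hs hst htS)
      have htg : t ∈ g := (mem_inter.1 htS).1
      by_cases htz : t = z
      · rw [htz]; exact mem_insert_self _ _
      · refine mem_insert_of_mem ?_
        have htK : t ∈ K := comps_closed hKc (hRK hs) hst fun htf => hYg t (hfY t htf htz) htg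
        have : t ∈ W := mem_inter.2 ⟨htg, htK⟩
        rwa [hw] at this
  have hpairA : A {z, w} := by
    refine hg.1.2 _ ?_
    rw [Finset.ssubset_iff_subset_ne]
    refine ⟨pair_subset_iff.2 ⟨hzg, hwg⟩, fun he => ?_⟩
    have h3 := hg.2
    rw [← he] at h3
    have := card_le_two (a := z) (b := w)
    omega
  have hnadj : ¬ (gr A).Adj z w := hg.not_adj hzg hwg
  have hvzw : v ∉ ({z, w} : Finset V) := by
    simp only [mem_insert, mem_singleton, not_or]
    exact ⟨hd.zv.ne', fun he => hvg (he ▸ hwg)⟩
  have huzw : u ∉ ({z, w} : Finset V) := by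
    simp only [mem_insert, mem_singleton, not_or]
    exact ⟨hd.zu.ne', fun he => hug (he ▸ hwg)⟩
  refine tight_pair h hwz.symm hnadj hvzw huzw ?_
  rw [comp_eq_of_mem_comps hRzw (self_mem_comp v)]
  exact fun hu => huK (hRK hu)

end Pool.Agent.Chrom
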